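import Pool.Agent.H238Z.TensMem

/-!
# Testing an upper bound on the spectral norm of a rational 3-tensor is complete for the
universal theory of the reals

The problem definitions are in `Pool.Agent.H238Z.TensDefs`; the complexity classes are in
`Pool.Agent.NPC.Defs`, `Pool.Agent.ER.Defs` and `Pool.Agent.H612.AR`.
-/

namespace Pool.Agent.Results.MP_50cd9e_lc.Complete

open Pool.Agent.NPC Pool.Agent.NPC.ER Pool.Agent.H238Z.Tens

/-- SPECTRAL-NORM-BOUND is `∀ℝ`-complete and SPECTRAL-NORM-EXCEED is `∃ℝ`-complete. -/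
theorem result : ARComplete (lang NormBound) ∧ ERComplete (lang NormExceed) :=
  ⟨⟨mem_bound, hard_bound⟩, ⟨mem_exceed, hard_exceed⟩⟩

end Pool.Agent.Results.MP_50cd9e_lc.Complete
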